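import Pool.Agent.Q34.EC.Sys

/-!
# The final theorem from the tower (job EC-FIN for helper22)
-/

set_option autoImplicit false

universe u

namespace Pool.Agent.Q34.EC

open Cardinal Monoid Pool.Agent.Q22.EC

/-- from systems with few variables to arbitrary systems -/
lemma isEC {κ : Cardinal.{u}} (hκ : κ.IsRegular) {V Γ : Type u} [Group Γ] (hV : #V = κ)
    (h : ∀ A : Set Γ, #A < κ → ∃ U : Subgroup Γ, A ⊆ U ∧
      ∀ c : Sys U V, Solvable c → ∃ a : V → Γ, Solves U.subtype a c) : IsEC κ Γ := by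
  classical
  intro X Eqs Neqs hE hN hsol
  obtain ⟨H, _, ι, a, hι, hae, han⟩ := hsol
  have hκ0 := hκ.aleph0_le
  have hW : #(Eqs ∪ Neqs : Set (Coprod Γ (FreeGroup X))) < κ :=
    (Cardinal.mk_union_le _ _).trans_lt (Cardinal.add_lt_of_lt hκ0 hE hN)
  set W : Set (Coprod Γ (FreeGroup X)) := Eqs ∪ Neqs with hWd
  rcases isEmpty_or_nonempty W with hWe | hWn
  · refine ⟨fun _ => 1, fun w hw => ?_, fun w hw => ?_⟩
    · exact hWe.elim ⟨w, Or.inl hw⟩
    · exact hWe.elim ⟨w, Or.inr hw⟩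
  choose s t hs ht hw using fun w : W => coef w.1
  have hcs : #(⋃ q, s q) < κ := by
    rw [Cardinal.card_iUnion_lt_iff_forall_of_isRegular hκ hW]
    exact fun q => (hs q).lt_aleph0.trans_le hκ0
  have hct : #(⋃ q, t q) < κ := by
    rw [Cardinal.card_iUnion_lt_iff_forall_of_isRegular hκ hW]
    exact fun q => (ht q).lt_aleph0.trans_le hκ0
  set A : Set Γ := ⋃ q, s q with hA
  set T : Set X := ⋃ q, t q with hT
  obtain ⟨U, hAU, hU⟩ := h A hcs
  choose w' hw' using fun q => hw q U T ((Set.subset_iUnion s q).trans hAU) (Set.subset_iUnion t q)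
  -- the variables
  obtain ⟨⟨ν, hν⟩⟩ : Nonempty (T ↪ V) := by
    rw [← Cardinal.le_def, hV]
    exact hct.le
  -- the words
  obtain ⟨⟨τ, hτ⟩⟩ : Nonempty (W ↪ V) := by
    rw [← Cardinal.le_def, hV]
    exact hW.le
  set σ : V → W := Function.invFun τ with hσ
  have hστ : ∀ w, σ (τ w) = w := Function.leftInverse_invFun hτ
  set c : Sys U V := fun q => (Coprod.map (MonoidHom.id U) (FreeGroup.map ν) (w' (σ q)),
    decide ((σ q).1 ∈ Eqs)) with hc
  -- evaluation of the words
  have ev : ∀ (L : Type u) [Group L] (f : Γ →* L) (b : V → L) (b' : X → L),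
      (∀ x : T, b (ν x) = b' x) → ∀ q, Coprod.lift (f.comp U.subtype) (FreeGroup.lift b) (c q).1 =
        Coprod.lift f (FreeGroup.lift b') (σ q).1 := by
    intro L _ f b b' hb q
    have h2 : (Coprod.lift (f.comp U.subtype) (FreeGroup.lift b)).comp
        (Coprod.map (MonoidHom.id U) (FreeGroup.map ν)) =
        (Coprod.lift f (FreeGroup.lift b')).comp
          (Coprod.map U.subtype (FreeGroup.map (Subtype.val : T → X))) := by
      refine Coprod.hom_ext ?_ ?_
      · ext n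
        simp
      · refine FreeGroup.ext_hom _ _ fun v => ?_
        simp [hb]
    have h3 := DFunLike.congr_fun h2 (w' (σ q))
    rw [MonoidHom.comp_apply, MonoidHom.comp_apply, hw'] at h3
    exact h3
  have hsolv : Solvable c := by
    refine ⟨H, inferInstance, ι.comp U.subtype, Function.extend ν (fun x : T => a x) 1,
      hι.comp (Subgroup.subtype_injective U), fun q => ?_⟩
    rw [ev H ι _ a (fun x => hν.extend_apply _ _ x) q]
    by_cases hq : (σ q).1 ∈ Eqs
    · have h1 : (c q).2 = true := by simp [hc, hq]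
      rw [h1]
      exact ⟨fun _ => rfl, fun _ => hae _ hq⟩
    · have h1 : (c q).2 = false := by simp [hc, hq]
      rw [h1]
      have h2 : (σ q).1 ∈ Neqs := by
        rcases (σ q).2 with h | h
        · exact absurd h hq
        · exact h
      exact ⟨fun h3 => absurd h3 (han _ h2), fun h3 => absurd h3 (by simp)⟩
  obtain ⟨a₁, ha₁⟩ := hU c hsolv
  set a₂ : X → Γ := fun x => if hx : x ∈ T then a₁ (ν ⟨x, hx⟩) else 1 with ha₂
  have ev2 : ∀ w : W, Coprod.lift (MonoidHom.id Γ) (FreeGroup.lift a₂) w.1 = 1 ↔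
      w.1 ∈ Eqs := by
    intro w
    have h1 := ev Γ (MonoidHom.id Γ) a₁ a₂ (fun x => by
      simp only [ha₂]
      rw [dif_pos x.2]) (τ w)
    have h2 := ha₁ (τ w)
    rw [hστ] at h1
    rw [← h1]
    have h3 : (c (τ w)).2 = true ↔ w.1 ∈ Eqs := by
      simp only [hc, hστ, decide_eq_true_eq]
    rw [← h3, ← h2]
    exact Iff.rfl
  refine ⟨a₂, fun w hw => (ev2 ⟨w, Or.inl hw⟩).2 hw, fun w hw h1 => ?_⟩
  have h2 := (ev2 ⟨w, Or.inr hw⟩).1 h1
  exact han w hw (hae w h2)

/-- **JOB FIN.** -/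
theorem final (ht : S_TOWER.{u}) : S_FINAL.{u} := by
  intro κ hκ
  have hκ0 := hκ.aleph0_le
  obtain ⟨V, hV⟩ : ∃ V : Type u, #V = κ := ⟨κ.out, κ.mk_out⟩
  obtain ⟨I, hI⟩ : ∃ I : Type u, #I = Order.succ κ := ⟨(Order.succ κ).out, (Order.succ κ).mk_out⟩
  have hκI : κ < #I := by rw [hI]; exact Order.lt_succ κ
  have hI0 : ℵ₀ ≤ #I := hκ0.trans hκI.le
  obtain ⟨Γ, _, hc, ⟨D, hD1, hD2⟩, hU⟩ := ht κ I V hκ hV.le hκI
  refine ⟨Γ, inferInstance, isEC hκ hV hU, ?_, ?_⟩
  · rw [hc]
    exact hκI.trans (Cardinal.cantor _)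
  · have h1 : #(MulAut Γ) ≤ #(D → Γ) := by
      refine Cardinal.mk_le_of_injective (f := fun (σ : MulAut Γ) (d : D) => σ d.1) ?_
      intro σ τ hστ
      have h2 := hD2 (τ.symm.toMonoidHom.comp σ.toMonoidHom) fun d hd => by
        have h3 : σ d = τ d := congrFun hστ ⟨d, hd⟩
        change τ.symm (σ d) = d
        rw [h3, MulEquiv.symm_apply_apply]
      ext g
      have h3 : τ.symm (σ g) = g := h2 g
      rw [MulEquiv.symm_apply_eq] at h3
      exact h3
    have h2 : #(D → Γ) ≤ #Γ := by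
      rw [← Cardinal.power_def, hc, ← Cardinal.power_mul]
      refine Cardinal.power_le_power_left (by norm_num) ?_
      calc #I * #D ≤ #I * #I := mul_le_mul' le_rfl hD1
        _ = #I := Cardinal.mul_eq_self hI0
    exact (h1.trans h2).trans_lt (Cardinal.cantor _)

end Pool.Agent.Q34.EC
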