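import Pool.Agent.Q22.EC.Stm

/-!
# Solvable systems live over small subgroups (job EC-SYS for helper22)
-/

set_option autoImplicit false

universe u

namespace Pool.Agent.Q34.EC

open Cardinal Monoid Pool.Agent.Q22.EC

/-- a word has finitely many variables -/
lemma vars {X : Type u} (v : FreeGroup X) : ∃ t : Set X, t.Finite ∧ ∀ T : Set X, t ⊆ T →
    ∃ v' : FreeGroup T, FreeGroup.map (Subtype.val : T → X) v' = v := by
  induction v using FreeGroup.induction_on with
  | C1 => exact ⟨∅, Set.finite_empty, fun T _ => ⟨1, map_one _⟩⟩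
  | of x => exact ⟨{x}, Set.finite_singleton x, fun T hT => ⟨FreeGroup.of ⟨x, hT rfl⟩, by simp⟩⟩
  | inv_of x _ =>
    exact ⟨{x}, Set.finite_singleton x, fun T hT => ⟨(FreeGroup.of ⟨x, hT rfl⟩)⁻¹, by simp⟩⟩
  | mul x y hx hy =>
    obtain ⟨s, hs, h1⟩ := hx
    obtain ⟨t, ht, h2⟩ := hy
    refine ⟨s ∪ t, hs.union ht, fun T hT => ?_⟩
    obtain ⟨x', hx'⟩ := h1 T (Set.subset_union_left.trans hT)
    obtain ⟨y', hy'⟩ := h2 T (Set.subset_union_right.trans hT)
    exact ⟨x' * y', by rw [map_mul, hx', hy']⟩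

/-- a word has finitely many coefficients and variables -/
lemma coef {G X : Type u} [Group G] (w : Coprod G (FreeGroup X)) :
    ∃ (s : Set G) (t : Set X), s.Finite ∧ t.Finite ∧ ∀ (N : Subgroup G) (T : Set X),
      s ⊆ N → t ⊆ T → ∃ w' : Coprod N (FreeGroup T),
        Coprod.map N.subtype (FreeGroup.map (Subtype.val : T → X)) w' = w := by
  induction w using Coprod.induction_on with
  | inl g => exact ⟨{g}, ∅, Set.finite_singleton g, Set.finite_empty,
      fun N T hN _ => ⟨Coprod.inl ⟨g, hN rfl⟩, rfl⟩⟩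
  | inr v =>
    obtain ⟨t, ht, h1⟩ := vars v
    refine ⟨∅, t, Set.finite_empty, ht, fun N T _ hT => ?_⟩
    obtain ⟨v', hv'⟩ := h1 T hT
    exact ⟨Coprod.inr v', by rw [Coprod.map_apply_inr, hv']⟩
  | mul x y hx hy =>
    obtain ⟨s, s', hs, hs', h1⟩ := hx
    obtain ⟨t, t', ht, ht', h2⟩ := hy
    refine ⟨s ∪ t, s' ∪ t', hs.union ht, hs'.union ht', fun N T hN hT => ?_⟩
    obtain ⟨x', hx'⟩ := h1 N T (Set.subset_union_left.trans hN) (Set.subset_union_left.trans hT)
    obtain ⟨y', hy'⟩ := h2 N T (Set.subset_union_right.trans hN)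
      (Set.subset_union_right.trans hT)
    exact ⟨x' * y', by rw [map_mul, hx', hy']⟩

/-- the size of a generated subgroup -/
lemma card_closure {G : Type u} [Group G] {κ : Cardinal.{u}} (hκ : ℵ₀ ≤ κ) {s : Set G}
    (hs : #s ≤ κ) : #(Subgroup.closure s) ≤ κ := by
  have h1 : (FreeGroup.lift ((↑) : s → G)).range = Subgroup.closure s := by
    rw [FreeGroup.range_lift_eq_closure, Subtype.range_coe]
  rw [← h1]
  have h2 : #((FreeGroup.lift ((↑) : s → G)).range) ≤ #(FreeGroup s) :=
    Cardinal.mk_le_of_surjective (MonoidHom.rangeRestrict_surjective _)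
  refine h2.trans ?_
  rcases isEmpty_or_nonempty s with h | h
  · have h3 : #(FreeGroup s) = 1 := by
      rw [Cardinal.eq_one_iff_unique]
      exact ⟨inferInstance, inferInstance⟩
    rw [h3]
    exact Cardinal.one_le_aleph0.trans hκ
  · rw [Cardinal.mk_freeGroup]
    exact max_le hs hκ

/-- **JOB SYS.** -/
theorem sys : S_SYS.{u} := by
  intro κ V hκ hV G _ c hc
  obtain ⟨H, _, ι, a, hι, ha⟩ := hc
  choose s t hs _ hw using fun q => coef (c q).1
  have hcs : #(⋃ q, s q) ≤ κ := by
    refine (Cardinal.mk_iUnion_le _).trans ?_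
    have h1 : (⨆ q, #(s q)) ≤ ℵ₀ := ciSup_le' fun q => ((hs q).lt_aleph0).le
    calc #V * ⨆ q, #(s q) ≤ κ * κ := mul_le_mul' hV (h1.trans hκ)
      _ = κ := Cardinal.mul_eq_self hκ
  set N : Subgroup G := Subgroup.closure (⋃ q, s q) with hN
  have hNc : #N ≤ κ := card_closure hκ hcs
  have hsN : ∀ q, s q ⊆ N := fun q =>
    (Set.subset_iUnion s q).trans Subgroup.subset_closure
  set M : Subgroup H := Subgroup.closure (Set.range (fun n : N => ι n) ∪ Set.range a) with hM
  have hMc : #M ≤ κ := by
    refine card_closure hκ ?_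
    refine (Cardinal.mk_union_le _ _).trans ?_
    calc #(Set.range (fun n : N => ι n)) + #(Set.range a) ≤ κ + κ :=
          add_le_add (Cardinal.mk_range_le.trans hNc) (Cardinal.mk_range_le.trans hV)
      _ = κ := Cardinal.add_eq_self hκ
  have hjM : ∀ n : N, ι n ∈ M := fun n => Subgroup.subset_closure (Or.inl ⟨n, rfl⟩)
  have haM : ∀ v, a v ∈ M := fun v => Subgroup.subset_closure (Or.inr ⟨v, rfl⟩)
  set j : N →* M := (ι.comp N.subtype).codRestrict M hjM with hj
  set a' : V → M := fun v => ⟨a v, haM v⟩ with ha'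
  refine ⟨N, M, inferInstance, j, a', hNc, hMc, ?_, ?_⟩
  · intro x y hxy
    have h1 : ι x = ι y := congrArg Subtype.val hxy
    exact Subtype.ext (hι h1)
  · intro L _ f m hm hmf q
    obtain ⟨w, hw'⟩ := hw q N Set.univ (hsN q) (Set.subset_univ _)
    have e1 : Coprod.lift f (FreeGroup.lift fun v => m (a' v)) (c q).1 =
        m (Coprod.lift j (FreeGroup.lift fun v : ↥(Set.univ : Set V) => a' v) w) := by
      rw [← hw']
      have h2 : (Coprod.lift f (FreeGroup.lift fun v => m (a' v))).comp
          (Coprod.map N.subtype (FreeGroup.map (Subtype.val : ↥(Set.univ : Set V) → V))) =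
          m.comp (Coprod.lift j (FreeGroup.lift fun v : ↥(Set.univ : Set V) => a' v)) := by
        refine Coprod.hom_ext ?_ ?_
        · ext n
          simp only [MonoidHom.comp_apply, Coprod.map_apply_inl, Coprod.lift_apply_inl]
          exact (hmf n).symm
        · refine FreeGroup.ext_hom _ _ fun v => ?_
          simp
      exact DFunLike.congr_fun h2 w
    have e2 : Coprod.lift ι (FreeGroup.lift a) (c q).1 =
        M.subtype (Coprod.lift j (FreeGroup.lift fun v : ↥(Set.univ : Set V) => a' v) w) := by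
      rw [← hw']
      have h2 : (Coprod.lift ι (FreeGroup.lift a)).comp
          (Coprod.map N.subtype (FreeGroup.map (Subtype.val : ↥(Set.univ : Set V) → V))) =
          M.subtype.comp (Coprod.lift j (FreeGroup.lift fun v : ↥(Set.univ : Set V) => a' v)) := by
        refine Coprod.hom_ext ?_ ?_
        · ext n
          rfl
        · refine FreeGroup.ext_hom _ _ fun v => ?_
          simp [ha']
      exact DFunLike.congr_fun h2 w
    rw [← ha q, e1, e2, map_eq_one_iff m hm, map_eq_one_iff _ (Subgroup.subtype_injective M)]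

end Pool.Agent.Q34.EC
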