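import Pool.Agent.Q22.EC.Stm

/-!
# The tower (job EC-TOWER for helper22)
-/

set_option autoImplicit false

universe u

namespace Pool.Agent.Q34.EC

open Cardinal Monoid Pool.Agent.Q22.EC

/-- small sets are bounded in a regular cardinal -/
lemma bdd {κ : Cardinal.{u}} (hκ : κ.IsRegular) {A : Type u} (hA : #A < κ)
    (f : A → κ.ord.ToType) : ∃ b, ∀ a, f a < b := by
  set g : A → Ordinal.{u} := fun a => Ordinal.typein (α := κ.ord.ToType) (· < ·) (f a) with hg
  have h1 : iSup g < κ.ord := by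
    refine Ordinal.iSup_lt_of_lt_cof ?_ fun a => Ordinal.typein_lt_self (f a)
    rwa [hκ.cof_ord]
  have h2 : Order.succ (iSup g) < κ.ord :=
    (Cardinal.isSuccLimit_ord hκ.aleph0_le).succ_lt h1
  have h3 : Order.succ (iSup g) < Ordinal.type (α := κ.ord.ToType) (· < ·) := by
    rwa [Ordinal.type_toType]
  refine ⟨Ordinal.enum (α := κ.ord.ToType) (· < ·) ⟨_, h3⟩, fun a => ?_⟩
  rw [← Ordinal.typein_lt_typein (· < · : κ.ord.ToType → κ.ord.ToType → Prop),
    Ordinal.typein_enum, Order.lt_succ_iff]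
  exact Ordinal.le_iSup g a

/-- transfer of systems along an isomorphism -/
lemma transfer {G G' U Γ V : Type u} [Group G] [Group G'] [Group U] [Group Γ]
    (θ : G ≃* U) (k : U →* Γ) (ι : G →* G') (e : G' →* Γ) (he : Function.Injective e)
    (hk : ∀ x, k (θ x) = e (ι x)) (c : Sys U V) (hc : Solvable c)
    (hs : ∀ c : Sys G V, Solvable c → ∃ a : V → G', Solves ι a c) :
    ∃ a : V → Γ, Solves k a c := by
  set c' : Sys G V := fun q => (Coprod.map θ.symm.toMonoidHom (MonoidHom.id _) (c q).1, (c q).2)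
    with hc'
  have h1 : Solvable c' := by
    obtain ⟨H, _, i, a, hi, ha⟩ := hc
    refine ⟨H, inferInstance, i.comp θ.toMonoidHom, a, hi.comp θ.injective, fun q => ?_⟩
    have h2 : (Coprod.lift (i.comp θ.toMonoidHom) (FreeGroup.lift a)).comp
        (Coprod.map θ.symm.toMonoidHom (MonoidHom.id _)) = Coprod.lift i (FreeGroup.lift a) := by
      refine Coprod.hom_ext ?_ ?_
      · ext x
        simp
      · refine FreeGroup.ext_hom _ _ fun v => ?_
        simp
    have h3 := DFunLike.congr_fun h2 (c q).1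
    rw [MonoidHom.comp_apply] at h3
    change Coprod.lift _ _ (Coprod.map _ _ (c q).1) = 1 ↔ (c q).2 = true
    rw [h3]
    exact ha q
  obtain ⟨a, ha⟩ := hs c' h1
  refine ⟨fun v => e (a v), fun q => ?_⟩
  have h2 : e.comp ((Coprod.lift ι (FreeGroup.lift a)).comp
      (Coprod.map θ.symm.toMonoidHom (MonoidHom.id _))) =
      Coprod.lift k (FreeGroup.lift fun v => e (a v)) := by
    refine Coprod.hom_ext ?_ ?_
    · ext x
      have h4 := hk (θ.symm x)
      rw [MulEquiv.apply_symm_apply] at h4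
      simp [h4]
    · refine FreeGroup.ext_hom _ _ fun v => ?_
      simp
  have h3 := DFunLike.congr_fun h2 (c q).1
  rw [← h3, MonoidHom.comp_apply, map_eq_one_iff e he]
  exact ha q

/-- **JOB TOWER.** -/
theorem tower (hs : S_STEP.{u}) (hi : S_ITER.{u}) : S_TOWER.{u} := by
  intro κ I V hκ hV hI
  have hκ0 := hκ.aleph0_le
  have hI0 : ℵ₀ ≤ #I := hκ0.trans hI.le
  have hIlam : #I < 2 ^ #I := Cardinal.cantor _
  have hJ : #κ.ord.ToType = κ := Cardinal.mk_ord_toType κ
  have hne : Nonempty κ.ord.ToType := by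
    rw [← Cardinal.mk_ne_zero_iff, hJ]
    exact hκ.ne_zero
  obtain ⟨Γ, _, U, hmono, hun, hcard, hU⟩ := hi κ.ord.ToType (2 ^ #I)
    (hI0.trans hIlam.le) (by rw [hJ]; exact hI.le.trans hIlam.le)
    (fun G G' _ _ ι => ∃ (D : Set G') (E : I → Set G'), StepRel κ I V ι D E)
    (by
      intro G _ hG
      obtain ⟨G', _, ι, D, E, h1, h2⟩ := hs κ I V hκ0 hV hI G hG
      exact ⟨G', inferInstance, ι, h1.inj, h2, D, E, h1⟩)
  -- the stages before a given one
  have hdir : ∀ k : κ.ord.ToType, ∀ i < k, ∀ g, g ∈ (⨆ i : {i // i < k}, U i.1) →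
      ∃ i < k, g ∈ U i := by
    intro k i0 hi0 g hg
    have : Nonempty {i // i < k} := ⟨⟨i0, hi0⟩⟩
    have hd : Directed (· ≤ ·) fun i : {i // i < k} => U i.1 := by
      intro x y
      rcases le_total x y with h | h
      · exact ⟨y, hmono h, le_rfl⟩
      · exact ⟨x, le_rfl, hmono h⟩
    obtain ⟨i, hi⟩ := (Subgroup.mem_iSup_of_directed hd).1 hg
    exact ⟨i.1, i.2, hi⟩
  have hle : ∀ k : κ.ord.ToType, ∀ i < k, U i ≤ ⨆ i : {i // i < k}, U i.1 :=
    fun k i hik => le_iSup (fun i : {i // i < k} => U i.1) ⟨i, hik⟩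
  -- stability
  have hstab : ∀ k : κ.ord.ToType, ∀ S : Set Γ, κ < #S →
      (∀ s ∈ S, s ∈ ⨆ i : {i // i < k}, U i.1) → ∀ g ∈ U k, (∀ s ∈ S, g * s = s * g) →
      g ∈ ⨆ i : {i // i < k}, U i.1 := by
    intro k S hS hSU g hg hgS
    obtain ⟨G, G', _, _, ι, e, ⟨D, E, hR⟩, hιi, hei, hr1, hr2⟩ := hU k
    rw [← hr2] at hg
    obtain ⟨g', rfl⟩ := hg
    have hS' : ∀ s ∈ S, ∃ x : G, e (ι x) = s := by
      intro s hs
      have h1 := hSU s hs
      rw [← hr1] at h1
      exact h1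
    set S' : Set G := {x | e (ι x) ∈ S} with hS'd
    have h1 : κ < #S' := by
      refine hS.trans_le ?_
      refine Cardinal.mk_le_of_surjective (f := fun x : S' => (⟨e (ι x.1), x.2⟩ : S)) ?_
      rintro ⟨s, hs⟩
      obtain ⟨x, hx⟩ := hS' s hs
      exact ⟨⟨x, by rw [hS'd, Set.mem_ofPred_eq, hx]; exact hs⟩, Subtype.ext hx⟩
    have h2 := hR.stab S' h1 g' fun s hs => by
      apply hei
      rw [map_mul, map_mul]
      exact hgS _ hs
    obtain ⟨x, hx⟩ := h2
    rw [← hr1]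
    exact ⟨x, by rw [MonoidHom.comp_apply, hx]⟩
  have hcent : ∀ j : κ.ord.ToType, ∀ S : Set Γ, κ < #S → (∀ s ∈ S, s ∈ U j) →
      ∀ g : Γ, (∀ s ∈ S, g * s = s * g) → g ∈ U j := by
    intro j S hS hSU g hg
    obtain ⟨k0, hk0⟩ := hun g
    obtain ⟨k, hk, hmin⟩ := WellFounded.has_min (wellFounded_lt (α := κ.ord.ToType))
      {k | g ∈ U k} ⟨k0, hk0⟩
    rcases le_or_gt k j with h | h
    · exact hmono h hk
    · exfalso
      have h1 := hstab k S hS (fun s hs => hle k j h (hSU s hs)) g hk hg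
      obtain ⟨i, hik, hi⟩ := hdir k j h g h1
      exact hmin i hi hik
  -- determination
  have hdet : ∀ j : κ.ord.ToType, ∃ D : Set Γ, #D ≤ #I ∧ ∀ φ : Γ →* Γ,
      (∀ g ∈ ⨆ i : {i // i < j}, U i.1, φ g = g) → (∀ d ∈ D, φ d = d) →
      ∀ g ∈ U j, φ g = g := by
    intro j
    obtain ⟨G, G', _, _, ι, e, ⟨D, E, hR⟩, hιi, hei, hr1, hr2⟩ := hU j
    refine ⟨e '' D, Cardinal.mk_image_le.trans hR.cardD, ?_⟩
    intro φ h1 h2 g hg
    rw [← hr2] at hg
    obtain ⟨g', rfl⟩ := hg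
    refine hR.det Γ e φ ?_ ?_ ?_ g'
    · intro v l hl
      have h3 : l ∈ U j := by
        refine hcent j (e '' E v) ?_ ?_ l ?_
        · rw [Cardinal.mk_image_eq hei]
          exact hR.big v
        · rintro _ ⟨s, _, rfl⟩
          rw [← hr2]
          exact ⟨s, rfl⟩
        · rintro _ ⟨s, hs, rfl⟩
          exact hl s hs
      rw [← hr2] at h3
      obtain ⟨x, rfl⟩ := h3
      rw [hR.cent v x fun s hs => hei (by rw [map_mul, map_mul]; exact hl s hs), map_one]
    · intro g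
      apply h1
      rw [← hr1]
      exact ⟨g, rfl⟩
    · intro d hd
      exact h2 _ ⟨d, hd, rfl⟩
  choose D hD1 hD2 using hdet
  refine ⟨Γ, inferInstance, le_antisymm hcard ?_, ⟨⋃ j, D j, ?_, ?_⟩, ?_⟩
  · obtain ⟨j0⟩ := hne
    obtain ⟨G, G', _, _, ι, e, ⟨D, E, hR⟩, hιi, hei, hr1, hr2⟩ := hU j0
    exact hR.large.trans (Cardinal.mk_le_of_injective hei)
  · refine (Cardinal.mk_iUnion_le _).trans ?_
    calc #κ.ord.ToType * ⨆ j, #(D j) ≤ #I * #I :=
          mul_le_mul' (by rw [hJ]; exact hI.le) (ciSup_le' hD1)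
      _ = #I := Cardinal.mul_eq_self hI0
  · intro φ hφ
    have key : ∀ j : κ.ord.ToType, ∀ g ∈ U j, φ g = g := by
      intro j
      induction j using WellFoundedLT.induction with
      | ind j ih =>
        refine hD2 j φ ?_ fun d hd => hφ d (Set.mem_iUnion_of_mem j hd)
        intro g hg
        have h1 : (⨆ i : {i // i < j}, U i.1) ≤ φ.eqLocus (MonoidHom.id Γ) :=
          iSup_le fun i g hg => ih i.1 i.2 g hg
        exact h1 hg
    intro g
    obtain ⟨j, hj⟩ := hun g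
    exact key j g hj
  · intro A hA
    choose f hf using fun a : A => hun a
    obtain ⟨b, hb⟩ := bdd hκ hA f
    refine ⟨⨆ i : {i // i < b}, U i.1, fun a ha => hle b _ (hb ⟨a, ha⟩) (hf ⟨a, ha⟩), ?_⟩
    intro c hc
    obtain ⟨G, G', _, _, ι, e, ⟨D, E, hR⟩, hιi, hei, hr1, hr2⟩ := hU b
    have hmem : ∀ x, (e.comp ι) x ∈ ⨆ i : {i // i < b}, U i.1 := by
      intro x
      rw [← hr1]
      exact ⟨x, rfl⟩
    set θ₀ : G →* ↥(⨆ i : {i // i < b}, U i.1) := (e.comp ι).codRestrict _ hmem with hθ₀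
    have hθb : Function.Bijective θ₀ := by
      constructor
      · intro x y hxy
        have h1 : e (ι x) = e (ι y) := congrArg Subtype.val hxy
        exact hιi (hei h1)
      · rintro ⟨y, hy⟩
        have h1 := hy
        rw [← hr1] at h1
        obtain ⟨x, hx⟩ := h1
        exact ⟨x, Subtype.ext hx⟩
    exact transfer (MulEquiv.ofBijective θ₀ hθb) _ ι e hei (fun x => rfl) c hc hR.solve

end Pool.Agent.Q34.EC
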